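import Mathlib

open Filter Topology Set Real MeasureTheory

namespace Pool.Agent.Results.MP_f4f8d7_an.Glide

/-- The Euclidean plane. -/
abbrev Plane : Type := EuclideanSpace ℝ (Fin 2)

/-- The graph of `f` in the plane. -/
def graph (f : ℝ → ℝ) : Set Plane := {p | p 1 = f (p 0)}

/-- The plane isometry `φ` carries `graph (c f)` onto `graph f`. -/
def Carries (φ : Plane ≃ᵢ Plane) (c : ℝ) (f : ℝ → ℝ) : Prop :=
  φ '' graph (fun x => c * f x) = graph f

def VerticallyRigid (f : ℝ → ℝ) : Prop := ∀ c : ℝ, 0 < c → ∃ φ : Plane ≃ᵢ Plane, Carries φ c f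

def IsTranslation (φ : Plane ≃ᵢ Plane) : Prop := ∃ v : Plane, ∀ p, φ p = p + v

noncomputable def P (n : ℕ) (x : ℝ) : ℝ × ℝ :=
  (cos ((3 ^ (n ^ 2) : ℕ) * (π * x)), 3 ^ n * sin ((3 ^ (n ^ 2) : ℕ) * (π * x)))

def T (x : ℝ) (c : ℝ × ℝ) : Prop := Tendsto (fun n => P n x) atTop (𝓝 c)

noncomputable def g (c : ℝ × ℝ) : ℝ := c.1 * exp (c.1 * c.2)

open Classical in
noncomputable def F (x : ℝ) : ℝ :=
  if ∃ c, T x c then g (limUnder atTop fun n => P n x) else 0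

lemma third : Tendsto (fun n : ℕ => ((3 : ℝ) ^ n)⁻¹) atTop (𝓝 0) :=
  tendsto_inv_atTop_zero.comp (tendsto_pow_atTop_atTop_of_one_lt (by norm_num))

lemma T.sin0 {x : ℝ} {c : ℝ × ℝ} (h : T x c) :
    Tendsto (fun n : ℕ => sin ((3 ^ (n ^ 2) : ℕ) * (π * x))) atTop (𝓝 0) := by
  have := third.mul h.snd_nhds
  rw [zero_mul] at this
  refine this.congr fun n => ?_
  simp only [P]
  field_simp

lemma T.sq {x : ℝ} {c : ℝ × ℝ} (h : T x c) : c.1 * c.1 = 1 := by
  have h1 := (h.fst_nhds.mul h.fst_nhds).add (h.sin0.mul h.sin0)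
  have h2 : Tendsto (fun _ : ℕ => (1 : ℝ)) atTop (𝓝 (c.1 * c.1 + 0 * 0)) :=
    h1.congr fun n => by
      simp only [P]
      nlinarith [sin_sq_add_cos_sq ((3 ^ (n ^ 2) : ℕ) * (π * x))]
  simpa using (tendsto_nhds_unique h2 tendsto_const_nhds)

lemma T.add {x t : ℝ} {a b : ℝ × ℝ} (hx : T x a) (ht : T t b) :
    T (x + t) (a.1 * b.1, a.2 * b.1 + a.1 * b.2) := by
  have h1 := (hx.fst_nhds.mul ht.fst_nhds).sub (hx.sin0.mul ht.sin0)
  have h2 := (hx.snd_nhds.mul ht.fst_nhds).add (hx.fst_nhds.mul ht.snd_nhds)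
  rw [mul_zero, sub_zero] at h1
  refine (h1.prodMk_nhds h2).congr fun n => ?_
  simp only [P, mul_add, cos_add, sin_add, Prod.mk.injEq, true_and]
  ring

lemma T.neg {t : ℝ} {b : ℝ × ℝ} (ht : T t b) : T (-t) (b.1, -b.2) := by
  refine (ht.fst_nhds.prodMk_nhds ht.snd_nhds.neg).congr fun n => ?_
  simp only [P, mul_neg, cos_neg, sin_neg]

lemma F_eq {x : ℝ} {c : ℝ × ℝ} (h : T x c) : F x = g c := by
  rw [F, if_pos ⟨c, h⟩, Tendsto.limUnder_eq h]

lemma F_add {t : ℝ} {b : ℝ × ℝ} (ht : T t b) (x : ℝ) : F (x + t) = g b * F x := by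
  by_cases hx : ∃ a, T x a
  · obtain ⟨a, ha⟩ := hx
    rw [F_eq ha, F_eq (ha.add ht)]
    have e : a.1 * b.1 * (a.2 * b.1 + a.1 * b.2) = b.1 * b.2 + a.1 * a.2 := by
      linear_combination a.1 * a.2 * ht.sq + b.1 * b.2 * ha.sq
    simp only [g, e, exp_add]
    ring
  · have : ¬ ∃ a, T (x + t) a := fun ⟨a, ha⟩ => hx ⟨_, by simpa using ha.add ht.neg⟩
    rw [F, F, if_neg hx, if_neg this, mul_zero]

lemma T_zero : T 0 (1, 0) := by
  simp [T, P]

lemma T_one : T 1 (-1, 0) := by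
  refine tendsto_const_nhds.congr fun n => ?_
  have : Odd (3 ^ (n ^ 2)) := Odd.pow (by decide)
  simp only [P, mul_one, cos_nat_mul_pi, sin_nat_mul_pi, mul_zero, this.neg_one_pow]

noncomputable def seq (θ : ℕ → ℝ) : ℕ → ℝ
  | 0 => θ 0
  | n + 1 => seq θ n + 2 * Int.fract ((θ (n + 1) - 3 ^ ((n + 1) ^ 2) * seq θ n) / 2) /
      3 ^ ((n + 1) ^ 2)

lemma approx (θ : ℕ → ℝ) : ∃ t : ℝ, ∀ n : ℕ, ∃ (q : ℤ) (δ : ℝ), 0 ≤ δ ∧
    δ ≤ ((3 : ℝ) ^ n)⁻¹ * (3 ^ n)⁻¹ ∧ 3 ^ (n ^ 2) * t = θ n + δ + 2 * q := by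
  have hm : Monotone (seq θ) := monotone_nat_of_le_succ fun n => by
    have := Int.fract_nonneg ((θ (n + 1) - 3 ^ ((n + 1) ^ 2) * seq θ n) / 2)
    rw [seq]
    exact le_add_of_nonneg_right (by positivity)
  have ha : Antitone fun n => seq θ n + 3 / 3 ^ ((n + 1) ^ 2) := antitone_nat_of_succ_le fun n => by
    have h1 := (Int.fract_lt_one ((θ (n + 1) - 3 ^ ((n + 1) ^ 2) * seq θ n) / 2)).le
    have h2 : (3 : ℝ) / 3 ^ ((n + 1 + 1) ^ 2) ≤ 1 / 3 ^ ((n + 1) ^ 2) := by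
      rw [div_le_div_iff₀ (by positivity) (by positivity), one_mul, ← pow_succ']
      exact pow_le_pow_right₀ (by norm_num)
        (Nat.pow_lt_pow_left (Nat.lt_succ_self (n + 1)) two_ne_zero)
    have h3 : 2 * Int.fract ((θ (n + 1) - 3 ^ ((n + 1) ^ 2) * seq θ n) / 2) / 3 ^ ((n + 1) ^ 2)
        ≤ 2 / 3 ^ ((n + 1) ^ 2) := by
      gcongr
      linarith
    have h4 : (3 : ℝ) / 3 ^ ((n + 1) ^ 2) = 1 / 3 ^ ((n + 1) ^ 2) + 2 / 3 ^ ((n + 1) ^ 2) := by
      ring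
    simp only [seq]
    linarith
  have hb : ∀ n p, seq θ p ≤ seq θ n + 3 / 3 ^ ((n + 1) ^ 2) := fun n p => by
    have h0 : ∀ m : ℕ, (0 : ℝ) ≤ 3 / 3 ^ ((m + 1) ^ 2) := fun m => by positivity
    rcases le_total n p with h | h
    · have := ha h
      linarith [h0 p]
    · linarith [hm h, h0 n]
  have hq : ∀ n, ∃ q : ℤ, 3 ^ (n ^ 2) * seq θ n = θ n + 2 * q := by
    rintro (_ | n)
    · exact ⟨0, by simp [seq]⟩
    · refine ⟨-⌊(θ (n + 1) - 3 ^ ((n + 1) ^ 2) * seq θ n) / 2⌋, ?_⟩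
      rw [seq, Int.fract]
      push_cast
      field_simp
      ring
  refine ⟨⨆ n, seq θ n, fun n => ?_⟩
  obtain ⟨q, hq⟩ := hq n
  have h1 : seq θ n ≤ ⨆ n, seq θ n := le_ciSup ⟨_, by rintro _ ⟨p, rfl⟩; exact hb 0 p⟩ n
  have h2 : (⨆ n, seq θ n) ≤ seq θ n + 3 / 3 ^ ((n + 1) ^ 2) := ciSup_le (hb n)
  refine ⟨q, 3 ^ (n ^ 2) * ((⨆ n, seq θ n) - seq θ n), mul_nonneg (by positivity) (by linarith),
    ?_, by linarith⟩
  calc _ ≤ 3 ^ (n ^ 2) * ((3 : ℝ) / 3 ^ ((n + 1) ^ 2)) := by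
        gcongr
        linarith
    _ = _ := by
        rw [show (n + 1) ^ 2 = n ^ 2 + n + n + 1 by ring]
        field_simp
        ring

lemma surj (L : ℝ) : ∃ t, T t (1, L) := by
  obtain ⟨t, ht⟩ := approx fun n => L / π * (3 ^ n)⁻¹
  choose q δ h0 h1 he using ht
  set y : ℕ → ℝ := fun n => L * (3 ^ n)⁻¹ + π * δ n with hy
  have hky : Tendsto (fun n : ℕ => 3 ^ n * y n) atTop (𝓝 L) := by
    have hd : Tendsto (fun n : ℕ => 3 ^ n * δ n) atTop (𝓝 0) := by
      refine squeeze_zero (fun n => mul_nonneg (by positivity) (h0 n)) (fun n => ?_) third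
      calc _ ≤ 3 ^ n * (((3 : ℝ) ^ n)⁻¹ * (3 ^ n)⁻¹) := by gcongr; exact h1 n
        _ = _ := by field_simp
    have := (hd.const_mul π).const_add L
    rw [mul_zero, add_zero] at this
    refine this.congr fun n => ?_
    simp only [hy]
    field_simp
  have hy0 : Tendsto y atTop (𝓝 0) := by
    have := third.mul hky
    rw [zero_mul] at this
    refine this.congr fun n => ?_
    field_simp
  have hc : Tendsto (fun n => cos (y n)) atTop (𝓝 1) := by
    simpa [Function.comp_def] using (continuous_cos.tendsto 0).comp hy0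
  have hs : Tendsto (fun n : ℕ => 3 ^ n * sin (y n)) atTop (𝓝 L) :=
    ((Asymptotics.IsEquivalent.refl (u := fun n : ℕ => (3 : ℝ) ^ n)).mul
      (isEquivalent_sin.comp_tendsto hy0)).symm.tendsto_nhds hky
  refine ⟨t, (hc.prodMk_nhds hs).congr fun n => ?_⟩
  have e : ((3 ^ (n ^ 2) : ℕ) : ℝ) * (π * t) = y n + (q n) * (2 * π) := by
    have := he n
    have hp := pi_pos.ne'
    push_cast
    rw [mul_left_comm, this]
    simp only [hy]
    field_simp
  simp only [P, e, cos_add_int_mul_two_pi, sin_add_int_mul_two_pi]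

lemma F_meas : Measurable F := by
  have hP : ∀ n, Measurable (P n) := fun n => by unfold P; fun_prop
  refine Measurable.ite (MeasureTheory.measurableSet_exists_tendsto hP) ?_ measurable_const
  have hg : Measurable g := by unfold g; fun_prop
  exact hg.comp (StronglyMeasurable.limUnder fun n => (hP n).stronglyMeasurable).measurable

/-- The glide reflection `(x, y) ↦ (x + s, -y)`. -/
noncomputable def glide (s : ℝ) : Plane ≃ᵢ Plane where
  toFun p := !₂[p 0 + s, -p 1]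
  invFun p := !₂[p 0 - s, -p 1]
  left_inv p := by ext i; fin_cases i <;> simp
  right_inv p := by ext i; fin_cases i <;> simp
  isometry_toFun := Isometry.of_dist_eq fun p q => by
    simp [EuclideanSpace.dist_eq, Fin.sum_univ_two]

theorem result : ∃ f : ℝ → ℝ, Measurable f ∧ NullMeasurable f volume ∧
    (∀ U : Set ℝ, IsOpen U → BaireMeasurableSet (f ⁻¹' U)) ∧ VerticallyRigid f ∧
    (¬ ∃ a b : ℝ, ∀ x, f x = a + b * x) ∧
    ∀ c : ℝ, 0 < c → ∃ φ : Plane ≃ᵢ Plane, Carries φ c f ∧ ¬ IsTranslation φ ∧ ∀ p, φ p ≠ p := by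
  have h0 : F 0 = 1 := by rw [F_eq T_zero]; simp [g]
  have h1 : ∀ x, F (x + 1) = -F x := fun x => by rw [F_add T_one]; simp [g]
  have main : ∀ c : ℝ, 0 < c →
      ∃ φ : Plane ≃ᵢ Plane, Carries φ c F ∧ ¬ IsTranslation φ ∧ ∀ p, φ p ≠ p := by
    intro c hc
    obtain ⟨t, ht⟩ := surj (log c)
    have h2 : ∀ x, F (x + (t + 1)) = -(c * F x) := fun x => by
      rw [← add_assoc, h1, F_add ht]
      simp [g, exp_log hc]
    refine ⟨glide (t + 1), ?_, ?_, fun p hp => ?_⟩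
    · ext p
      constructor
      · rintro ⟨r, hr, rfl⟩
        have hr' : r 1 = c * F (r 0) := hr
        show -r 1 = F (r 0 + (t + 1))
        rw [h2, hr']
      · intro hp
        have hp' : p 1 = F (p 0) := hp
        refine ⟨(glide (t + 1)).symm p, ?_, by simp⟩
        show -p 1 = c * F (p 0 - (t + 1))
        have := h2 (p 0 - (t + 1))
        rw [sub_add_cancel] at this
        rw [hp', this, neg_neg]
    · rintro ⟨v, hv⟩
      have e1 : -(0 : Plane) 1 = (0 + v) 1 := congrArg (fun p : Plane => p 1) (hv 0)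
      have e2 : -(!₂[0, 1] : Plane) 1 = ((!₂[0, 1] : Plane) + v) 1 :=
        congrArg (fun p : Plane => p 1) (hv !₂[0, 1])
      simp at e1 e2
      linarith
    · have e : p 0 + (t + 1) = p 0 := congrArg (fun p : Plane => p 0) hp
      have := h2 0
      rw [show (0 : ℝ) + (t + 1) = 0 by linarith, h0] at this
      linarith
  refine ⟨F, F_meas, F_meas.nullMeasurable,
    fun U hU => (F_meas hU.measurableSet).baireMeasurableSet,
    fun c hc => (main c hc).imp fun φ h => h.1, ?_, main⟩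
  rintro ⟨a, b, h⟩
  have e1 := h1 0
  have e2 := h1 1
  have e0 := h 0
  rw [h, h] at e1 e2
  linarith

end Pool.Agent.Results.MP_f4f8d7_an.Glide
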